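import Mathlib
import Pool.Agent.H33.Chrom

set_option autoImplicit false

namespace Pool.Agent.H84.Comp.PolynomialGap

open Pool.Agent.H33

/-- Every colouring of the edges of `H` with two colours contains a monochromatic copy of `G`: for
every spanning subgraph `R` of `H` (the red edges; the others are blue) there is a (not necessarily
induced) copy of `G` in `R` or in the graph `H \ R` of the blue edges. -/
def Arrows {V W : Type} (H : SimpleGraph W) (G : SimpleGraph V) : Prop :=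
  ∀ R : SimpleGraph W, R ≤ H → G.IsContained R ∨ G.IsContained (H \ R)

/-- `N` is the chromatic Ramsey number of `G`: the least number which is the chromatic number of a
finite graph `H` such that every colouring of the edges of `H` with two colours contains a
monochromatic copy of `G`. -/
def IsChromaticRamsey {V : Type} (G : SimpleGraph V) (N : ℕ) : Prop :=
  IsLeast {N : ℕ | ∃ (W : Type) (_ : Finite W) (H : SimpleGraph W),
    H.chromaticNumber = (N : ℕ∞) ∧ Arrows H G} N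

section Aux

private theorem Arrows.of_contained {V V' W : Type} {H : SimpleGraph W} {G : SimpleGraph V}
    {G' : SimpleGraph V'} (h : Arrows H G) (h' : G'.IsContained G) : Arrows H G' := by
  intro R hR
  rcases h R hR with h1 | h1
  · exact Or.inl (h'.trans h1)
  · exact Or.inr (h'.trans h1)

private theorem arrows_of_col {n m : ℕ} {G : SimpleGraph (Fin n)} {H : SimpleGraph (Fin m)}
    (h : ∀ col : Fin m → Fin m → Bool, (∀ a b, col a b = col b a) →
        ∃ (f : Fin n → Fin m) (b : Bool), Function.Injective f ∧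
          ∀ x y : Fin n, G.Adj x y → H.Adj (f x) (f y) ∧ col (f x) (f y) = b) :
    Arrows H G := by
  classical
  intro R hR
  obtain ⟨f, b, hf, hfb⟩ := h (fun a b => decide (R.Adj a b))
    (fun a b => by simp [SimpleGraph.adj_comm])
  cases b with
  | true =>
    refine Or.inl ⟨⟨⟨f, fun {x y} hxy => ?_⟩, hf⟩⟩
    have := (hfb x y hxy).2
    simpa using this
  | false =>
    refine Or.inr ⟨⟨⟨f, fun {x y} hxy => ?_⟩, hf⟩⟩
    have h1 := (hfb x y hxy).1
    have h2 := (hfb x y hxy).2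
    rw [SimpleGraph.sdiff_adj]
    exact ⟨h1, by simpa using h2⟩

/-- Every finite graph has a chromatic Ramsey number, bounded by the colourability of any host. -/
private theorem exists_of_host {V W : Type} [Finite W] {H : SimpleGraph W} {G : SimpleGraph V}
    {M : ℕ} (hH : H.Colorable M) (h : Arrows H G) : ∃ N, IsChromaticRamsey G N ∧ N ≤ M := by
  classical
  have hle : H.chromaticNumber ≤ (M : ℕ∞) := SimpleGraph.chromaticNumber_le_iff_colorable.mpr hH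
  obtain ⟨N₀, hN₀⟩ := ENat.ne_top_iff_exists.mp (ne_top_of_le_ne_top (ENat.natCast_ne_top M) hle)
  have hmem : ∃ N : ℕ, N ∈ {N : ℕ | ∃ (W : Type) (_ : Finite W) (H : SimpleGraph W),
      H.chromaticNumber = (N : ℕ∞) ∧ Arrows H G} := ⟨N₀, W, inferInstance, H, hN₀.symm, h⟩
  refine ⟨Nat.find hmem, ⟨Nat.find_spec hmem, fun N hN => Nat.find_min' hmem hN⟩, ?_⟩
  have h1 : Nat.find hmem ≤ N₀ := Nat.find_min' hmem ⟨W, inferInstance, H, hN₀.symm, h⟩
  have h2 : N₀ ≤ M := by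
    rw [← hN₀] at hle
    exact_mod_cast hle
  exact h1.trans h2

private theorem exists_host {V : Type} [Finite V] (G : SimpleGraph V) :
    ∃ (N m : ℕ) (H : SimpleGraph (Fin m)), H.Colorable N ∧ Arrows H G := by
  obtain ⟨n, ⟨e⟩⟩ := Finite.exists_equiv_fin V
  obtain ⟨N, m, H, h1, h2⟩ := nonempty_host (G.comap e.symm)
  refine ⟨N, m, H, h1, (arrows_of_col h2).of_contained ⟨⟨⟨e, fun {x y} hxy => ?_⟩, e.injective⟩⟩⟩
  simp only [SimpleGraph.comap_adj, Equiv.symm_apply_apply]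
  exact hxy

private theorem exists_number {V : Type} [Finite V] (G : SimpleGraph V) :
    ∃! N : ℕ, IsChromaticRamsey G N := by
  obtain ⟨N, m, H, h1, h2⟩ := exists_host G
  obtain ⟨N', h3, -⟩ := exists_of_host h1 h2
  exact ⟨N', h3, fun N'' h4 => h4.unique h3⟩

/-- If `G` maps neither to `F` nor to the complement of `F`, then the chromatic Ramsey number of
`G` is larger than the number of vertices of `F`. -/
private theorem lower' {V : Type} {N : ℕ} {G : SimpleGraph V} {W : Type} [Fintype W]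
    (F : SimpleGraph W) (h1 : (G →g F) → False) (h2 : (G →g Fᶜ) → False)
    (hN : IsChromaticRamsey G N) : Fintype.card W < N := by
  classical
  by_contra hle
  push Not at hle
  obtain ⟨U, _, H, hH, hA⟩ := hN.1
  have hHN : H.Colorable N := SimpleGraph.chromaticNumber_le_iff_colorable.mp hH.le
  obtain ⟨C⟩ : H.Colorable (Fintype.card W) := hHN.mono hle
  let κ : U → W := fun x => (Fintype.equivFin W).symm (C x)
  have hκ : ∀ x y, H.Adj x y → κ x ≠ κ y := by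
    intro x y hxy heq
    exact C.valid hxy ((Fintype.equivFin W).symm.injective heq)
  rcases hA (H ⊓ F.comap κ) inf_le_left with ⟨⟨φ, -⟩⟩ | ⟨⟨φ, -⟩⟩
  · refine h1 ⟨fun x => κ (φ x), fun {x y} hxy => ?_⟩
    exact (φ.map_adj hxy).2
  · refine h2 ⟨fun x => κ (φ x), fun {x y} hxy => ?_⟩
    have h3 := φ.map_adj hxy
    rw [SimpleGraph.sdiff_adj] at h3
    rw [SimpleGraph.compl_adj]
    refine ⟨hκ _ _ h3.1, fun h4 => h3.2 ⟨h3.1, h4⟩⟩

/-- The construction. -/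
private theorem construction (k : ℕ) (hk : 1 ≤ k) :
    ∃ (n : ℕ) (G : SimpleGraph (Fin n)), (∃ x y, G.Adj x y) ∧
      (∃ (m : ℕ) (H : SimpleGraph (Fin m)), H.Colorable (16 ^ k + 1) ∧ Arrows H G) ∧
      ∀ N : ℕ, IsChromaticRamsey (cone G) N → 20 ^ k < N := by
  have h16 : 16 ≤ 16 ^ k := by
    calc 16 = 16 ^ 1 := by norm_num
      _ ≤ 16 ^ k := Nat.pow_le_pow_right (by norm_num) hk
  obtain ⟨V, i1, i2, G, hG, hGY⟩ := exists_universal (16 ^ k + 1) (by omega)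
  obtain ⟨W, j1, j2, F, hW, hF⟩ := good_pow k
  set h : ℝ := Real.sqrt ((16 ^ k + 1 : ℕ) : ℝ) - 1 with hh
  have hlt : (4 : ℝ) ^ k < h + 1 := by
    rw [hh, sub_add_cancel]
    apply Real.lt_sqrt_of_sq_lt
    push_cast
    have : ((4 : ℝ) ^ k) ^ 2 = 16 ^ k := by
      rw [← pow_mul, mul_comm, pow_mul]; norm_num
    rw [this]
    linarith
  have hlt1 : (1 : ℝ) < h + 1 := lt_of_le_of_lt (one_le_pow₀ (by norm_num)) hlt
  have e := Fintype.equivFin V
  let n := Fintype.card V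
  let G' : SimpleGraph (Fin n) := G.comap e.symm
  let ι : G →g G' := ⟨e, fun {x y} hxy => by
    simp only [G', SimpleGraph.comap_adj, Equiv.symm_apply_apply]
    exact hxy⟩
  let ι' : G' →g G := ⟨e.symm, fun {x y} hxy => hxy⟩
  refine ⟨n, G', ?_, ?_, ?_⟩
  · by_contra hne
    push Not at hne
    let ψ : G →g (⊤ : SimpleGraph (Fin 1))ᶜ := ⟨fun _ => 0, fun {x y} hxy =>
      absurd (ι.map_adj hxy) (hne _ _)⟩
    exact (good_top 1).no_hom_compl hG hlt1 ψ
  · obtain ⟨m, H, h1, h2⟩ := upper (N := 16 ^ k + 1) G' (by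
      intro Y
      rcases hGY Y with ⟨⟨φ⟩⟩ | ⟨⟨φ⟩⟩
      · exact Or.inl ⟨φ.comp ι'⟩
      · exact Or.inr ⟨φ.comp ι'⟩)
    exact ⟨m, H, h1, arrows_of_col h2⟩
  · intro N hN
    rw [← hW]
    refine lower' F ?_ ?_ hN
    · intro φ
      let ψ : G →g F := ⟨fun x => φ (Fin.succ (ι x)), fun {x y} hxy =>
        φ.map_adj ((cone_adj_succ G' _ _).2 (ι.map_adj hxy))⟩
      refine hF.no_hom_local hG (by push_cast; exact hlt) (φ 0) ψ ?_
      intro x
      exact φ.map_adj (cone_adj_zero G' _)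
    · intro φ
      let ψ : G →g Fᶜ := ⟨fun x => φ (Fin.succ (ι x)), fun {x y} hxy =>
        φ.map_adj ((cone_adj_succ G' _ _).2 (ι.map_adj hxy))⟩
      exact hF.no_hom_compl hG hlt ψ

private theorem main (k : ℕ) (hk : 1 ≤ k) :
    ∃ (n : ℕ) (G : SimpleGraph (Fin n)) (v : Fin n) (a b : ℕ),
      (∀ w, w ≠ v → G.Adj v w) ∧ (∃ x y, x ≠ v ∧ y ≠ v ∧ G.Adj x y) ∧
      IsChromaticRamsey G a ∧ IsChromaticRamsey (G.induce {v}ᶜ) b ∧
      20 ^ k < a ∧ b ≤ 16 ^ k + 1 := by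
  obtain ⟨n, G, ⟨x, y, hxy⟩, ⟨m, H, hH, hA⟩, hlow⟩ := construction k hk
  have hcon : ((cone G).induce {(0 : Fin (n + 1))}ᶜ).IsContained G := by
    have hne : ∀ z : ({(0 : Fin (n + 1))}ᶜ : Set (Fin (n + 1))), z.1 ≠ 0 := fun z => z.2
    refine ⟨⟨⟨fun z => Fin.pred z.1 (hne z), fun {z w} hzw => ?_⟩, ?_⟩⟩
    · have h1 : (cone G).Adj z.1 w.1 := hzw
      rw [← cone_adj_succ, Fin.succ_pred, Fin.succ_pred]
      exact h1
    · intro z w hzw
      have h2 : Fin.pred z.1 (hne z) = Fin.pred w.1 (hne w) := hzw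
      exact Subtype.ext (Fin.pred_inj.mp h2)
  obtain ⟨b, hb, hbM⟩ := exists_of_host hH (hA.of_contained hcon)
  obtain ⟨a, ha, -⟩ := exists_number (cone G)
  refine ⟨n + 1, cone G, 0, a, b, ?_, ⟨x.succ, y.succ, Fin.succ_ne_zero _, Fin.succ_ne_zero _,
    (cone_adj_succ G _ _).2 hxy⟩, ha, hb, hlow a ha, hbM⟩
  intro w hw
  obtain ⟨w', rfl⟩ := Fin.exists_succ_eq.mpr hw
  exact cone_adj_zero G w'

end Aux

/-- (1) Every finite graph has exactly one chromatic Ramsey number.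
(2) For every `k ≥ 1` there are a graph `G` and a vertex `v` of `G`, adjacent to all other
vertices, such that `G - v` has an edge and `R_χ(G - v) ≤ 16 ^ k + 1`, `R_χ(G) > 20 ^ k`.
(3) So there are `G`, `v` with `R_χ(G)` arbitrarily large and `R_χ(G - v) ^ 27 < R_χ(G) ^ 25`, and
for every `c > 0` there are a graph `G` with an edge and a vertex `v` of `G` with
`R_χ(G - v) < c R_χ(G)`. -/
theorem result :
    (∀ (V : Type) [Finite V] (G : SimpleGraph V), ∃! N : ℕ, IsChromaticRamsey G N) ∧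
    (∀ k : ℕ, 1 ≤ k → ∃ (n : ℕ) (G : SimpleGraph (Fin n)) (v : Fin n) (a b : ℕ),
      (∀ w, w ≠ v → G.Adj v w) ∧ (∃ x y, x ≠ v ∧ y ≠ v ∧ G.Adj x y) ∧
      IsChromaticRamsey G a ∧ IsChromaticRamsey (G.induce {v}ᶜ) b ∧
      20 ^ k < a ∧ b ≤ 16 ^ k + 1) ∧
    (∀ M : ℕ, ∃ (n : ℕ) (G : SimpleGraph (Fin n)) (v : Fin n) (a b : ℕ),
      (∃ x y, x ≠ v ∧ y ≠ v ∧ G.Adj x y) ∧
      IsChromaticRamsey G a ∧ IsChromaticRamsey (G.induce {v}ᶜ) b ∧ M < a ∧ b ^ 27 < a ^ 25) ∧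
    ∀ c : ℝ, 0 < c → ∃ (n : ℕ) (G : SimpleGraph (Fin n)) (v : Fin n) (a b : ℕ),
      (∃ x y, G.Adj x y) ∧ IsChromaticRamsey G a ∧ IsChromaticRamsey (G.induce {v}ᶜ) b ∧
      (b : ℝ) < c * a := by
  refine ⟨fun V _ G => exists_number G, main, fun M => ?_, fun c hc => ?_⟩
  · obtain ⟨n, G, v, a, b, -, h2, h3, h4, h5, h6⟩ := main (M + 3) (by omega)
    refine ⟨n, G, v, a, b, h2, h3, h4, ?_, ?_⟩
    · have h7 : M + 3 < 20 ^ (M + 3) := Nat.lt_pow_self (by norm_num)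
      omega
    · have h16 : (16 ^ (M + 3) + 1) ^ 27 ≤ (20 ^ (M + 3)) ^ 25 := by
        have hb1 : 16 ^ 3 ≤ 16 ^ (M + 3) := Nat.pow_le_pow_right (by norm_num) (by omega)
        have hb2 : 16 ^ 3 * (16 ^ (M + 3) + 1) ≤ (16 ^ 3 + 1) * 16 ^ (M + 3) := by
          have : 16 ^ 3 * (16 ^ (M + 3) + 1) = 16 ^ 3 * 16 ^ (M + 3) + 16 ^ 3 := by ring
          have : (16 ^ 3 + 1) * 16 ^ (M + 3) = 16 ^ 3 * 16 ^ (M + 3) + 16 ^ (M + 3) := by ring
          omega
        have hb3 : (16 ^ 3) ^ 27 * (16 ^ (M + 3) + 1) ^ 27 ≤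
            (16 ^ 3 + 1) ^ 27 * (16 ^ (M + 3)) ^ 27 := by
          rw [← mul_pow, ← mul_pow]
          exact Nat.pow_le_pow_left hb2 27
        have hb4 : (16 ^ 3 + 1) ^ 27 * (16 ^ (M + 3)) ^ 27 ≤
            (16 ^ 3) ^ 27 * (20 ^ (M + 3)) ^ 25 := by
          have h8 : (16 ^ (M + 3)) ^ 27 = (16 ^ 27) ^ M * (16 ^ 27) ^ 3 := by
            rw [← pow_mul, mul_comm (M + 3) 27, pow_mul, pow_add]
          have h9 : (20 ^ (M + 3)) ^ 25 = (20 ^ 25) ^ M * (20 ^ 25) ^ 3 := by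
            rw [← pow_mul, mul_comm (M + 3) 25, pow_mul, pow_add]
          rw [h8, h9]
          have h10 : (16 ^ 27) ^ M ≤ (20 ^ 25) ^ M := Nat.pow_le_pow_left (by norm_num) M
          have h11 : (16 ^ 3 + 1) ^ 27 * (16 ^ 27) ^ 3 ≤ (16 ^ 3) ^ 27 * (20 ^ 25) ^ 3 := by
            norm_num
          calc (16 ^ 3 + 1) ^ 27 * ((16 ^ 27) ^ M * (16 ^ 27) ^ 3)
              = (16 ^ 27) ^ M * ((16 ^ 3 + 1) ^ 27 * (16 ^ 27) ^ 3) := by ring
            _ ≤ (20 ^ 25) ^ M * ((16 ^ 3) ^ 27 * (20 ^ 25) ^ 3) := Nat.mul_le_mul h10 h11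
            _ = (16 ^ 3) ^ 27 * ((20 ^ 25) ^ M * (20 ^ 25) ^ 3) := by ring
        exact Nat.le_of_mul_le_mul_left (hb3.trans hb4) (by positivity)
      calc b ^ 27 ≤ (16 ^ (M + 3) + 1) ^ 27 := Nat.pow_le_pow_left h6 27
        _ ≤ (20 ^ (M + 3)) ^ 25 := h16
        _ < a ^ 25 := Nat.pow_lt_pow_left h5 (by norm_num)
  · obtain ⟨k, hk⟩ := pow_unbounded_of_one_lt (2 / c) (show (1 : ℝ) < 20 / 16 by norm_num)
    obtain ⟨n, G, v, a, b, -, ⟨x, y, -, -, hxy⟩, h3, h4, h5, h6⟩ := main (k + 1) (by omega)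
    refine ⟨n, G, v, a, b, ⟨x, y, hxy⟩, h3, h4, ?_⟩
    have e1 : (b : ℝ) ≤ 16 ^ (k + 1) + 1 := by exact_mod_cast h6
    have e2 : ((20 : ℝ) ^ (k + 1)) < a := by exact_mod_cast h5
    have e3 : (1 : ℝ) ≤ 16 ^ (k + 1) := one_le_pow₀ (by norm_num)
    have e4 : (2 / c : ℝ) < (20 / 16) ^ (k + 1) :=
      hk.trans (pow_lt_pow_right₀ (by norm_num) (Nat.lt_succ_self k))
    have e5 : (20 : ℝ) ^ (k + 1) = (20 / 16) ^ (k + 1) * 16 ^ (k + 1) := by
      rw [← mul_pow]; norm_num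
    have e6 : (2 : ℝ) < c * (20 / 16) ^ (k + 1) := by
      rw [div_lt_iff₀ hc] at e4
      linarith
    calc (b : ℝ) ≤ 16 ^ (k + 1) + 1 := e1
      _ ≤ 2 * 16 ^ (k + 1) := by linarith
      _ ≤ c * (20 / 16) ^ (k + 1) * 16 ^ (k + 1) :=
        mul_le_mul_of_nonneg_right e6.le (by positivity)
      _ = c * 20 ^ (k + 1) := by rw [e5]; ring
      _ < c * a := mul_lt_mul_of_pos_left e2 hc

end Pool.Agent.H84.Comp.PolynomialGap
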